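import Pool.Agent.W655.RK.Ep

/-!
# Sums over the divisors of a product of primes, general weights (project QF, part QF-GBE)
-/

set_option autoImplicit false

namespace Pool.Agent.W762.QF

open Finset Pool.Agent.W262.RK Pool.Agent.W655.RK

theorem pf_sub {z y d : ℕ} (hd : d ∈ (PP z y).divisors) : d.primeFactors ⊆ PS z y := by
  have h1 : (PP z y).primeFactors = PS z y := Nat.primeFactors_prod fun p hp => PS_prime hp
  rw [← h1]
  exact Nat.primeFactors_mono (Nat.dvd_of_mem_divisors hd) (Nat.mem_divisors.1 hd).2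

theorem sqf {z y d : ℕ} (hd : d ∈ (PP z y).divisors) : Squarefree d :=
  (prod_primes_squarefree (PS z y) fun p hp => PS_prime hp).squarefree_of_dvd
    (Nat.dvd_of_mem_divisors hd)

/-- the three bounds for the sums of a nonnegative multiplicative function -/
theorem gen (φ : ℕ → ℝ) (w B : ℝ) (z : ℕ) (hw : 0 < w) (hw2 : w ≤ 1 / 2) (hB0 : 0 ≤ B)
    (hz2 : 2 ≤ z) (hφ0 : ∀ y, ∀ p ∈ PS z y, 0 ≤ φ p)
    (hsum : ∀ y : ℕ, 2 ≤ y → ∑ p ∈ PS z y, φ p ≤ w * Real.log (Real.log y) + B) :
    (∀ y, z < y → ∑ d ∈ (PP z y).divisors, ∏ p ∈ d.primeFactors, φ p ≤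
      Real.exp (3 * (B + 1)) * (Real.log y) ^ w) ∧
    (∀ y V : ℕ, z < y → 2 ≤ V →
      ∑ d ∈ (PP z y).divisors.filter (fun d => d ≤ V), ∏ p ∈ d.primeFactors, φ p ≤
        Real.exp (3 * (B + 1)) * (Real.log V) ^ w) ∧
    (∀ y Y : ℕ, z < y → 1 ≤ Y →
      ∑ d ∈ (PP z y).divisors.filter (fun d => Y < d), ∏ p ∈ d.primeFactors, φ p ≤
        Real.exp (3 * (B + 1)) * Real.exp (-(Real.log Y / Real.log y)) * (Real.log y) ^ 2) := by
  have hlog : ∀ y : ℕ, 2 ≤ y → 0 < Real.log y := fun y hy =>
    Real.log_pos (by exact_mod_cast (by omega : 1 < y))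
  have main : ∀ y : ℕ, 2 ≤ y → ∑ d ∈ (PP z y).divisors, ∏ p ∈ d.primeFactors, φ p ≤
      Real.exp B * (Real.log y) ^ w := by
    intro y hy
    unfold PP
    rw [sum_mult (PS z y) (fun p hp => PS_prime hp) φ]
    refine (prod_le_exp _ _ fun p hp => by have := hφ0 y p hp; linarith).trans ?_
    rw [Real.rpow_def_of_pos (hlog y hy), ← Real.exp_add, Real.exp_le_exp]
    have := hsum y hy
    linarith
  have hnn : ∀ y, ∀ d ∈ (PP z y).divisors, 0 ≤ ∏ p ∈ d.primeFactors, φ p := by
    intro y d hd
    exact Finset.prod_nonneg fun p hp => hφ0 y p (pf_sub hd hp)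
  refine ⟨?_, ?_, ?_⟩
  · intro y hy
    refine (main y (by omega)).trans ?_
    refine mul_le_mul_of_nonneg_right ?_ (Real.rpow_nonneg (hlog y (by omega)).le _)
    rw [Real.exp_le_exp]
    linarith
  · intro y V hy hV
    have hsub : (PP z y).divisors.filter (fun d => d ≤ V) ⊆ (PP z (min y V)).divisors := by
      intro d hd
      rw [mem_filter] at hd
      have h1 := pf_sub hd.1
      have h2 : Squarefree d := sqf hd.1
      rw [Nat.mem_divisors]
      refine ⟨?_, (prod_primes_squarefree (PS z (min y V)) fun p hp => PS_prime hp).ne_zero⟩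
      rw [← Nat.prod_primeFactors_of_squarefree h2]
      refine Finset.prod_dvd_prod_of_subset _ _ _ fun p hp => ?_
      have h3 := h1 hp
      have h4 : p ≤ d := Nat.le_of_mem_primeFactors hp
      exact mem_filter.2 ⟨mem_Ioc.2 ⟨PS_lt h3, le_min (PS_le h3) (h4.trans hd.2)⟩, PS_prime h3⟩
    have h1 : ∑ d ∈ (PP z y).divisors.filter (fun d => d ≤ V), ∏ p ∈ d.primeFactors, φ p ≤
        ∑ d ∈ (PP z (min y V)).divisors, ∏ p ∈ d.primeFactors, φ p :=
      Finset.sum_le_sum_of_subset_of_nonneg hsub fun d hd _ => hnn _ d hd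
    have hmin2 : 2 ≤ min y V := le_min (by omega) hV
    refine h1.trans ((main _ hmin2).trans ?_)
    have h2 : (Real.log (min y V : ℕ)) ^ w ≤ (Real.log V) ^ w := by
      refine Real.rpow_le_rpow (hlog _ hmin2).le ?_ hw.le
      exact Real.log_le_log (by exact_mod_cast (by omega : 0 < min y V))
        (by exact_mod_cast min_le_right y V)
    refine mul_le_mul ?_ h2 (Real.rpow_nonneg (hlog _ hmin2).le _) (Real.exp_pos _).le
    rw [Real.exp_le_exp]
    linarith
  · intro y Y hy hY
    have hy3 : 3 ≤ y := by omega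
    have hly := hlog y (by omega)
    have hly1 : 1 ≤ Real.log y := by
      rw [Real.le_log_iff_exp_le (by positivity)]
      have := Real.exp_one_lt_d9
      have h3 : (3:ℝ) ≤ y := by exact_mod_cast hy3
      linarith
    have hY0 : (0:ℝ) < Y := by exact_mod_cast hY
    set ψ : ℕ → ℝ := fun p => φ p * Real.exp (Real.log p / Real.log y) with hψ
    have hterm : ∀ d ∈ (PP z y).divisors.filter (fun d => Y < d), ∏ p ∈ d.primeFactors, φ p ≤
        Real.exp (-(Real.log Y / Real.log y)) * ∏ p ∈ d.primeFactors, ψ p := by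
      intro d hd
      rw [mem_filter] at hd
      have h2 : Squarefree d := sqf hd.1
      have h3 : ∏ p ∈ d.primeFactors, Real.exp (Real.log p / Real.log y) =
          Real.exp (Real.log d / Real.log y) := by
        rw [← Real.exp_sum, ← Finset.sum_div, ← Real.log_prod]
        · congr 3
          conv_rhs => rw [← Nat.prod_primeFactors_of_squarefree h2]
          push_cast
          rfl
        · intro p hp
          exact_mod_cast (Nat.prime_of_mem_primeFactors hp).ne_zero
      rw [hψ, Finset.prod_mul_distrib, h3]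
      have h4 : 0 ≤ ∏ p ∈ d.primeFactors, φ p := hnn y d hd.1
      have h5 : 1 ≤ Real.exp (-(Real.log Y / Real.log y)) * Real.exp (Real.log d / Real.log y) := by
        rw [← Real.exp_add]
        apply Real.one_le_exp
        rw [neg_add_eq_sub, ← sub_div]
        refine div_nonneg (sub_nonneg.2 (Real.log_le_log hY0 ?_)) hly.le
        exact_mod_cast hd.2.le
      calc ∏ p ∈ d.primeFactors, φ p = (∏ p ∈ d.primeFactors, φ p) * 1 := (mul_one _).symm
        _ ≤ (∏ p ∈ d.primeFactors, φ p) * (Real.exp (-(Real.log Y / Real.log y)) *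
            Real.exp (Real.log d / Real.log y)) := mul_le_mul_of_nonneg_left h5 h4
        _ = _ := by ring
    have hψ0 : ∀ p ∈ PS z y, 0 ≤ ψ p := fun p hp => mul_nonneg (hφ0 y p hp) (Real.exp_pos _).le
    have hψe : ∀ p ∈ PS z y, ψ p ≤ φ p * Real.exp 1 := by
      intro p hp
      refine mul_le_mul_of_nonneg_left ?_ (hφ0 y p hp)
      rw [Real.exp_le_exp, div_le_one hly]
      exact Real.log_le_log (by exact_mod_cast (PS_prime hp).pos) (by exact_mod_cast PS_le hp)
    calc ∑ d ∈ (PP z y).divisors.filter (fun d => Y < d), ∏ p ∈ d.primeFactors, φ p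
        ≤ ∑ d ∈ (PP z y).divisors.filter (fun d => Y < d),
            Real.exp (-(Real.log Y / Real.log y)) * ∏ p ∈ d.primeFactors, ψ p :=
          Finset.sum_le_sum hterm
      _ ≤ ∑ d ∈ (PP z y).divisors,
            Real.exp (-(Real.log Y / Real.log y)) * ∏ p ∈ d.primeFactors, ψ p := by
          refine Finset.sum_le_sum_of_subset_of_nonneg (filter_subset _ _) fun d hd _ => ?_
          exact mul_nonneg (Real.exp_pos _).le
            (Finset.prod_nonneg fun p hp => hψ0 p (pf_sub hd hp))
      _ = Real.exp (-(Real.log Y / Real.log y)) * ∏ p ∈ PS z y, (1 + ψ p) := by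
          rw [← Finset.mul_sum]
          congr 1
          exact sum_mult (PS z y) (fun p hp => PS_prime hp) ψ
      _ ≤ Real.exp (-(Real.log Y / Real.log y)) *
            (Real.exp (3 * (B + 1)) * (Real.log y) ^ 2) := by
          refine mul_le_mul_of_nonneg_left ?_ (Real.exp_pos _).le
          refine (prod_le_exp _ _ fun p hp => by have := hψ0 p hp; linarith).trans ?_
          have h6 : (Real.log y) ^ 2 = Real.exp (2 * Real.log (Real.log y)) := by
            rw [mul_comm, Real.exp_mul, Real.exp_log hly]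
            norm_num
          rw [h6, ← Real.exp_add, Real.exp_le_exp]
          have h7 : ∑ p ∈ PS z y, ψ p ≤ (w * Real.log (Real.log y) + B) * Real.exp 1 := by
            calc ∑ p ∈ PS z y, ψ p ≤ ∑ p ∈ PS z y, φ p * Real.exp 1 := Finset.sum_le_sum hψe
              _ = (∑ p ∈ PS z y, φ p) * Real.exp 1 := by rw [Finset.sum_mul]
              _ ≤ _ := mul_le_mul_of_nonneg_right (hsum y (by omega)) (Real.exp_pos _).le
          have h8 : 0 ≤ Real.log (Real.log y) := Real.log_nonneg hly1
          have h9 := Real.exp_one_lt_d9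
          have h10 : w * Real.exp 1 ≤ 2 := by nlinarith [Real.exp_pos 1]
          have h11 : w * Real.log (Real.log y) * Real.exp 1 ≤ 2 * Real.log (Real.log y) := by
            calc w * Real.log (Real.log y) * Real.exp 1 = (w * Real.exp 1) * Real.log (Real.log y) := by ring
              _ ≤ _ := mul_le_mul_of_nonneg_right h10 h8
          have h12 : B * Real.exp 1 ≤ 3 * B := by nlinarith
          linarith
      _ = _ := by ring

/-- the Euler product over the primes not dividing `R` -/
theorem set_eq (z y R : ℕ) : (PP z y).divisors.filter (fun d => d.Coprime R) =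
    (∏ p ∈ (PS z y).filter (fun p => ¬ p ∣ R), p).divisors := by
  set S' := (PS z y).filter (fun p => ¬ p ∣ R) with hS'
  have hS'p : ∀ p ∈ S', p.Prime := fun p hp => PS_prime (mem_filter.1 hp).1
  have hsq1 := prod_primes_squarefree (PS z y) fun p hp => PS_prime hp
  have hsq2 := prod_primes_squarefree S' hS'p
  ext d
  rw [mem_filter, Nat.mem_divisors, Nat.mem_divisors]
  constructor
  · rintro ⟨⟨hd, -⟩, hc⟩
    refine ⟨?_, hsq2.ne_zero⟩
    have hsd : Squarefree d := hsq1.squarefree_of_dvd hd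
    rw [← Nat.prod_primeFactors_of_squarefree hsd]
    refine Finset.prod_dvd_prod_of_subset _ _ _ fun p hp => ?_
    have hpp := Nat.prime_of_mem_primeFactors hp
    have hpd := Nat.dvd_of_mem_primeFactors hp
    have h1 : p ∈ PS z y := by
      rw [← Nat.primeFactors_prod (s := PS z y) fun p hp => PS_prime hp]
      exact Nat.primeFactors_mono hd hsq1.ne_zero hp
    refine mem_filter.2 ⟨h1, fun hpR => ?_⟩
    have := Nat.dvd_gcd hpd hpR
    rw [hc.gcd_eq_one] at this
    exact hpp.one_lt.ne' (Nat.dvd_one.1 this)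
  · rintro ⟨hd, -⟩
    refine ⟨⟨hd.trans (Finset.prod_dvd_prod_of_subset _ _ _ (filter_subset _ _)),
      hsq1.ne_zero⟩, ?_⟩
    refine Nat.Coprime.coprime_dvd_left hd ?_
    exact Nat.Coprime.prod_left fun p hp =>
      ((hS'p p hp).coprime_iff_not_dvd).2 (mem_filter.1 hp).2

theorem sum_chr (φ : ℕ → ℝ) (z y R r : ℕ) (κ : ℤ) (e : Bool) :
    ∑ d ∈ (PP z y).divisors.filter (fun d => d.Coprime R),
      (∏ p ∈ d.primeFactors, φ p) * (Jr d r * Jr κ d * x4 e d) =
    ∏ p ∈ (PS z y).filter (fun p => ¬ p ∣ R), (1 + φ p * chr κ r e p) := by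
  have hS'p : ∀ p ∈ (PS z y).filter (fun p => ¬ p ∣ R), p.Prime :=
    fun p hp => PS_prime (mem_filter.1 hp).1
  rw [set_eq, ← sum_mult _ hS'p (fun p => φ p * chr κ r e p)]
  refine Finset.sum_congr rfl fun d hd => ?_
  have hsd : Squarefree d :=
    (prod_primes_squarefree _ hS'p).squarefree_of_dvd (Nat.dvd_of_mem_divisors hd)
  show (∏ p ∈ d.primeFactors, φ p) * chr κ r e d = _
  have h1 : chr κ r e d = ∏ p ∈ d.primeFactors, chr κ r e p := by
    rw [← chr_prod κ r e _ fun p hp => Nat.prime_of_mem_primeFactors hp,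
      Nat.prod_primeFactors_of_squarefree hsd]
  rw [h1, ← Finset.prod_mul_distrib]

end Pool.Agent.W762.QF
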