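import Pool.Agent.W307.QF.Stm
import Pool.Agent.W762.QF.Gen
import Pool.Agent.W586.RK.UB

/-!
# Project QF: the bounds GB for the weights `w (1 + (e | p)) / (p - c)`
-/

set_option autoImplicit false

namespace Pool.Agent.W762.QF

open Finset Pool.Agent.W262.RK Pool.Agent.W655.RK Pool.Agent.W307.QF

theorem re_cast (e : ℤ) (p : ℕ) : (re e p : ℝ) = 1 + Jr e p := by
  unfold re Jr
  have h : 0 ≤ 1 + jacobiSym e p := by
    rcases jacobiSym.trichotomy e p with h | h | h <;> rw [h] <;> norm_num
  have h2 : ((1 + jacobiSym e p).toNat : ℤ) = 1 + jacobiSym e p := Int.toNat_of_nonneg h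
  have h3 : (((1 + jacobiSym e p).toNat : ℤ) : ℝ) = ((1 + jacobiSym e p : ℤ) : ℝ) := by rw [h2]
  push_cast at h3
  exact h3

theorem re_nonneg (e : ℤ) (p : ℕ) : (0 : ℝ) ≤ re e p := Nat.cast_nonneg _

theorem re_le (e : ℤ) (p : ℕ) : (re e p : ℝ) ≤ 2 := by
  rw [re_cast]
  have := (abs_le.1 (Jr_abs e p)).2
  linarith

theorem chr_mul (κ e : ℤ) (r : ℕ) (e' : Bool) (p : ℕ) :
    chr (κ * e) r e' p = chr κ r e' p * Jr e p := by
  have h : Jr (κ * e) p = Jr κ p * Jr e p := by
    unfold Jr
    rw [jacobiSym.mul_left, Int.cast_mul]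
  unfold chr
  rw [h]
  ring

theorem gbe_of (hM : MER) : GBE := by
  intro w c e κ hw hw4 he hκ
  have hw2 : w ≤ 1 / 2 := by linarith
  obtain ⟨C0, hC0, hmer⟩ := mertens
  obtain ⟨K, hK, hsq⟩ := sum_inv_sq
  have hc0 : (0 : ℝ) ≤ c := Nat.cast_nonneg c
  -- the sum of the character
  obtain ⟨Cm, hCm0, hCm⟩ : ∃ Cm : ℝ, 0 ≤ Cm ∧ ∀ z y : ℕ,
      |∑ p ∈ PS z y, Jr e p / (p : ℝ)| ≤ Cm := by
    rcases he with rfl | he
    · refine ⟨0, le_rfl, fun z y => ?_⟩
      have : ∑ p ∈ PS z y, Jr 0 p / (p : ℝ) = 0 := by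
        refine Finset.sum_eq_zero fun p hp => ?_
        unfold Jr
        rw [jacobiSym.zero_left (PS_prime hp).one_lt]
        simp
      rw [this, abs_zero]
    · obtain ⟨C, hC⟩ := hM e he
      exact ⟨|C|, abs_nonneg _, fun z y => (hC z y).trans (le_abs_self C)⟩
  refine ⟨4 * c + 4 + κ.natAbs + (κ * e).natAbs, fun z hz => ?_⟩
  have hz2 : 2 ≤ z := by omega
  have hzc : 2 * c + 2 ≤ z := by omega
  -- the two sums with the characters
  obtain ⟨C1, hC1⟩ := Pool.Agent.W586.RK.UB.ub κ z hκ hz2 (by omega)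
  obtain ⟨C2, hC2⟩ : ∃ C2 : ℝ, ∀ (y r : ℕ) (e' : Bool), z < y → 1 < r → Squarefree r →
      (∀ p : ℕ, p.Prime → p ∣ r → z < p) →
      ∑ p ∈ PS z y, chr κ r e' p * Jr e p / (p : ℝ) ≤ max 0 (Real.log (Real.log r) + C2) := by
    by_cases he0 : e = 0
    · refine ⟨0, fun y r e' _ _ _ _ => ?_⟩
      have : ∑ p ∈ PS z y, chr κ r e' p * Jr e p / (p : ℝ) = 0 := by
        refine Finset.sum_eq_zero fun p hp => ?_
        rw [he0]
        unfold Jr
        rw [jacobiSym.zero_left (PS_prime hp).one_lt]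
        simp
      rw [this]
      exact le_max_left _ _
    · obtain ⟨C2, hC2⟩ := Pool.Agent.W586.RK.UB.ub (κ * e) z (mul_ne_zero hκ he0) hz2 (by omega)
      refine ⟨C2, fun y r e' h1 h2 h3 h4 => ?_⟩
      have h5 := hC2 y r e' h1 h2 h3 h4
      refine le_trans (le_of_eq ?_) (h5.trans (le_max_right _ _))
      refine Finset.sum_congr rfl fun p _ => ?_
      rw [← chr_mul]
      rfl
  -- local weights
  set θ : ℕ → ℝ := fun p => w / ((p : ℝ) - c) * re e p with hθ
  set φ : ℕ → ℝ := fun p => θ p * (1 + 2 / (p : ℝ)) with hφ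
  have hp4 : ∀ y, ∀ p ∈ PS z y, (4 * c + 5 : ℝ) ≤ p := fun y p hp => by
    have := PS_lt hp
    exact_mod_cast (by omega : 4 * c + 5 ≤ p)
  have hθ0 : ∀ y, ∀ p ∈ PS z y, 0 ≤ θ p := by
    intro y p hp
    have h1 := hp4 y p hp
    have h2 : 0 < (p : ℝ) - c := by linarith
    exact mul_nonneg (div_nonneg hw.le h2.le) (re_nonneg e p)
  have hθ1 : ∀ y, ∀ p ∈ PS z y, θ p ≤ 1 / (p : ℝ) := by
    intro y p hp
    have h1 := hp4 y p hp
    have h2 : 0 < (p : ℝ) - c := by linarith
    have h3 : 0 < (p : ℝ) := by linarith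
    have h4 : θ p ≤ w / ((p : ℝ) - c) * 2 :=
      mul_le_mul_of_nonneg_left (re_le e p) (div_nonneg hw.le h2.le)
    refine h4.trans ?_
    rw [div_mul_eq_mul_div, div_le_div_iff₀ h2 h3]
    nlinarith
  have hφ0 : ∀ y, ∀ p ∈ PS z y, 0 ≤ φ p := by
    intro y p hp
    exact mul_nonneg (hθ0 y p hp) (by positivity)
  have hgh : ∀ d : ℕ, gw w c d * rr (re e) d * hh d = ∏ p ∈ d.primeFactors, φ p := by
    intro d
    unfold gw rr hh
    rw [← Finset.prod_mul_distrib, ← Finset.prod_mul_distrib]
  have hgθ : ∀ d : ℕ, gw w c d * rr (re e) d = ∏ p ∈ d.primeFactors, θ p := by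
    intro d
    unfold gw rr
    rw [← Finset.prod_mul_distrib]
  set B : ℝ := w * C0 + w * Cm + 2 * (6 * c + 2) * K with hB
  have hB0 : 0 ≤ B := by positivity
  have hsum : ∀ y : ℕ, 2 ≤ y → ∑ p ∈ PS z y, φ p ≤ w * Real.log (Real.log y) + B := by
    intro y hy
    have h1 : ∀ p ∈ PS z y, φ p ≤ w * (1 / (p : ℝ)) + w * (Jr e p / (p : ℝ)) +
        2 * (6 * c + 2) * (1 / (p : ℝ) ^ 2) := by
      intro p hp
      have h2 := (weight_le w c z p hw hw2 hzc (PS_lt hp)).2
      have h3 : φ p = w / ((p : ℝ) - c) * (1 + 2 / (p : ℝ)) * re e p := by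
        simp only [hφ, hθ]; ring
      rw [h3]
      refine (mul_le_mul_of_nonneg_right h2 (re_nonneg e p)).trans ?_
      have h4 := re_le e p
      have h5 : 0 ≤ (6 * c + 2) * (1 / (p : ℝ) ^ 2) := by positivity
      have h6 : w * (1 / (p : ℝ)) * re e p = w * (1 / (p : ℝ)) + w * (Jr e p / (p : ℝ)) := by
        rw [re_cast]; ring
      rw [add_mul, h6]
      nlinarith
    calc ∑ p ∈ PS z y, φ p ≤ ∑ p ∈ PS z y, (w * (1 / (p : ℝ)) + w * (Jr e p / (p : ℝ)) +
          2 * (6 * c + 2) * (1 / (p : ℝ) ^ 2)) := Finset.sum_le_sum h1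
      _ = w * ∑ p ∈ PS z y, 1 / (p : ℝ) + w * ∑ p ∈ PS z y, Jr e p / (p : ℝ) +
          2 * (6 * c + 2) * ∑ p ∈ PS z y, 1 / (p : ℝ) ^ 2 := by
          rw [Finset.sum_add_distrib, Finset.sum_add_distrib, Finset.mul_sum, Finset.mul_sum,
            Finset.mul_sum]
      _ ≤ w * (Real.log (Real.log y) + C0) + w * Cm + 2 * (6 * c + 2) * K := by
          refine add_le_add (add_le_add (mul_le_mul_of_nonneg_left (hmer z y hy) hw.le)
            (mul_le_mul_of_nonneg_left ?_ hw.le)) (mul_le_mul_of_nonneg_left (hsq _) (by positivity))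
          exact (le_abs_self _).trans (hCm z y)
      _ = _ := by rw [hB]; ring
  obtain ⟨g1, g2, g3⟩ := gen φ w B z hw hw2 hB0 hz2 hφ0 hsum
  set D : ℝ := Real.exp (3 * (B + 1)) with hD
  set D' : ℝ := Real.exp (w * (|C1| + |C2|) + 2 * c * K) with hD'
  have hD1 : 1 ≤ D := Real.one_le_exp (by positivity)
  have hmax : ∀ x : ℝ, 0 ≤ x → D * x ≤ max D D' * x := fun x hx =>
    mul_le_mul_of_nonneg_right (le_max_left _ _) hx
  have hlog : ∀ y : ℕ, 2 ≤ y → 0 < Real.log y := fun y hy =>
    Real.log_pos (by exact_mod_cast (by omega : 1 < y))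
  refine ⟨max D D', hD1.trans (le_max_left _ _), ?_, ?_, ?_, ?_, ?_, ?_⟩
  · intro y d hd
    rw [hgθ]
    exact Finset.prod_nonneg fun p hp => hθ0 y p (pf_sub hd hp)
  · intro y d hd
    rw [hgθ]
    have h1 : (1 : ℝ) / (d : ℝ) = ∏ p ∈ d.primeFactors, 1 / (p : ℝ) := by
      rw [Finset.prod_div_distrib, Finset.prod_const_one]
      congr 1
      conv_lhs => rw [← Nat.prod_primeFactors_of_squarefree (sqf hd)]
      push_cast
      rfl
    rw [h1]
    exact Finset.prod_le_prod (fun p hp => hθ0 y p (pf_sub hd hp))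
      fun p hp => hθ1 y p (pf_sub hd hp)
  · intro y hy
    simp only [hgh]
    exact (g1 y hy).trans (hmax _ (Real.rpow_nonneg (hlog y (by omega)).le _))
  · intro y V hy hV
    simp only [hgh]
    exact (g2 y V hy hV).trans (hmax _ (Real.rpow_nonneg (hlog V hV).le _))
  · intro y Y hy hY
    simp only [hgh]
    refine (g3 y Y hy hY).trans ?_
    rw [mul_assoc, mul_assoc]
    exact hmax _ (by positivity)
  · intro y R r e' hy hR hr hrs hrp
    simp only [hgθ]
    rw [sum_chr]
    set S' := (PS z y).filter (fun p => ¬ p ∣ R) with hS'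
    have hr3 : 3 ≤ r := by
      obtain ⟨p, hp, hpr⟩ := Nat.exists_prime_and_dvd (by omega : r ≠ 1)
      have h1 := hrp p hp hpr
      have h2 := Nat.le_of_dvd (by omega) hpr
      omega
    have hlr : 0 < Real.log r := Real.log_pos (by exact_mod_cast (by omega : 1 < r))
    have hlr1 : 1 ≤ Real.log r := by
      rw [Real.le_log_iff_exp_le (by positivity)]
      have := Real.exp_one_lt_d9
      have h3 : (3:ℝ) ≤ r := by exact_mod_cast hr3
      linarith
    have hllr : 0 ≤ Real.log (Real.log r) := Real.log_nonneg hlr1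
    have hfac : ∀ p ∈ S', 0 ≤ 1 + θ p * chr κ r e' p := by
      intro p hp
      have hp' := (mem_filter.1 hp).1
      have h1 := hp4 y p hp'
      have h2 : θ p ≤ 1 := (hθ1 y p hp').trans (by
        rw [div_le_one (by linarith)]; linarith)
      have h4 := (abs_le.1 (chr_abs κ r e' p)).1
      have h5 := hθ0 y p hp'
      nlinarith
    rw [abs_of_nonneg (Finset.prod_nonneg hfac)]
    refine (prod_le_exp S' (fun p => θ p * chr κ r e' p) hfac).trans ?_
    have hterm : ∀ p ∈ PS z y, θ p * chr κ r e' p ≤ w * (chr κ r e' p / p) +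
        w * (chr κ r e' p * Jr e p / p) + 2 * c * (1 / (p : ℝ) ^ 2) := by
      intro p hp
      have h1 := hp4 y p hp
      have h2 : 0 < (p : ℝ) - c := by linarith
      have hp0 : (0:ℝ) < p := by linarith
      have h4 := (abs_le.1 (chr_abs κ r e' p)).2
      have h5 : θ p * chr κ r e' p = w * (chr κ r e' p / p) + w * (chr κ r e' p * Jr e p / p) +
          (w * c / (p * (p - c))) * (re e p * chr κ r e' p) := by
        have : θ p = w / ((p : ℝ) - c) * (1 + Jr e p) := by
          simp only [hθ]; rw [re_cast]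
        rw [this, re_cast]
        field_simp
        ring
      rw [h5]
      have h6 : 0 ≤ w * c / (p * (p - c)) := by positivity
      have h7 : w * c / (p * (p - c)) ≤ c * (1 / (p : ℝ) ^ 2) := by
        rw [mul_one_div, div_le_div_iff₀ (by positivity) (by positivity)]
        have h8 : w * p ≤ p - c := by nlinarith
        have h9 : 0 ≤ (c : ℝ) * p := by positivity
        nlinarith
      have h10 : re e p * chr κ r e' p ≤ 2 := by
        have := mul_le_mul_of_nonneg_left h4 (re_nonneg e p)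
        linarith [re_le e p]
      have h11 : (w * c / (p * (p - c))) * (re e p * chr κ r e' p) ≤
          (w * c / (p * (p - c))) * 2 := mul_le_mul_of_nonneg_left h10 h6
      linarith
    have hsplit1 : ∑ p ∈ S', chr κ r e' p / (p : ℝ) ≤ (Real.log (Real.log r) + C1) +
        ∑ p ∈ (PS z y).filter (fun p => p ∣ R), 1 / (p : ℝ) := by
      have hub : ∑ p ∈ PS z y, chr κ r e' p / (p : ℝ) ≤ Real.log (Real.log r) + C1 :=
        hC1 y r e' hy hr hrs hrp
      have hsplit := Finset.sum_filter_add_sum_filter_not (PS z y) (fun p => p ∣ R)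
        (fun p => chr κ r e' p / (p : ℝ))
      have h2 : -∑ p ∈ (PS z y).filter (fun p => p ∣ R), 1 / (p : ℝ) ≤
          ∑ p ∈ (PS z y).filter (fun p => p ∣ R), chr κ r e' p / (p : ℝ) := by
        rw [← Finset.sum_neg_distrib]
        refine Finset.sum_le_sum fun p _ => ?_
        rw [← neg_div]
        exact div_le_div_of_nonneg_right (abs_le.1 (chr_abs κ r e' p)).1 (Nat.cast_nonneg p)
      linarith
    have hchJ : ∀ p : ℕ, |chr κ r e' p * Jr e p| ≤ 1 := fun p => by
      rw [abs_mul]
      exact mul_le_one₀ (chr_abs κ r e' p) (abs_nonneg _) (Jr_abs e p)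
    have hsplit2 : ∑ p ∈ S', chr κ r e' p * Jr e p / (p : ℝ) ≤
        (Real.log (Real.log r) + |C2|) +
        ∑ p ∈ (PS z y).filter (fun p => p ∣ R), 1 / (p : ℝ) := by
      have hub := hC2 y r e' hy hr hrs hrp
      have hmx : max 0 (Real.log (Real.log r) + C2) ≤ Real.log (Real.log r) + |C2| :=
        max_le (by positivity) (by linarith [le_abs_self C2])
      have hsplit := Finset.sum_filter_add_sum_filter_not (PS z y) (fun p => p ∣ R)
        (fun p => chr κ r e' p * Jr e p / (p : ℝ))
      have h2 : -∑ p ∈ (PS z y).filter (fun p => p ∣ R), 1 / (p : ℝ) ≤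
          ∑ p ∈ (PS z y).filter (fun p => p ∣ R), chr κ r e' p * Jr e p / (p : ℝ) := by
        rw [← Finset.sum_neg_distrib]
        refine Finset.sum_le_sum fun p _ => ?_
        rw [← neg_div]
        exact div_le_div_of_nonneg_right (abs_le.1 (hchJ p)).1 (Nat.cast_nonneg p)
      linarith
    have hexp : ∑ p ∈ S', θ p * chr κ r e' p ≤
        2 * w * Real.log (Real.log r) + (w * (|C1| + |C2|) + 2 * c * K) +
          ∑ p ∈ (PS z y).filter (fun p => p ∣ R), 2 * w / p := by
      calc ∑ p ∈ S', θ p * chr κ r e' p ≤ ∑ p ∈ S', (w * (chr κ r e' p / p) +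
            w * (chr κ r e' p * Jr e p / p) + 2 * c * (1 / (p : ℝ) ^ 2)) :=
            Finset.sum_le_sum fun p hp => hterm p (mem_filter.1 hp).1
        _ = w * ∑ p ∈ S', chr κ r e' p / p + w * ∑ p ∈ S', chr κ r e' p * Jr e p / p +
            2 * c * ∑ p ∈ S', 1 / (p : ℝ) ^ 2 := by
            rw [Finset.sum_add_distrib, Finset.sum_add_distrib, Finset.mul_sum, Finset.mul_sum,
              Finset.mul_sum]
        _ ≤ w * ((Real.log (Real.log r) + |C1|) +
              ∑ p ∈ (PS z y).filter (fun p => p ∣ R), 1 / (p : ℝ)) +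
            w * ((Real.log (Real.log r) + |C2|) +
              ∑ p ∈ (PS z y).filter (fun p => p ∣ R), 1 / (p : ℝ)) + 2 * c * K := by
            refine add_le_add (add_le_add (mul_le_mul_of_nonneg_left ?_ hw.le)
              (mul_le_mul_of_nonneg_left hsplit2 hw.le))
              (mul_le_mul_of_nonneg_left (hsq _) (by positivity))
            linarith [le_abs_self C1]
        _ = _ := by
            have : ∑ p ∈ (PS z y).filter (fun p => p ∣ R), 2 * w / (p : ℝ) =
                2 * w * ∑ p ∈ (PS z y).filter (fun p => p ∣ R), 1 / (p : ℝ) := by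
              rw [Finset.mul_sum]
              exact Finset.sum_congr rfl fun p _ => by ring
            rw [this]
            ring
    have hhh : Real.exp (∑ p ∈ (PS z y).filter (fun p => p ∣ R), 2 * w / p) ≤ hh R := by
      rw [Real.exp_sum]
      unfold hh
      have hsub : (PS z y).filter (fun p => p ∣ R) ⊆ R.primeFactors := by
        intro p hp
        rw [mem_filter] at hp
        exact Nat.mem_primeFactors.2 ⟨PS_prime hp.1, hp.2, hR⟩
      calc ∏ p ∈ (PS z y).filter (fun p => p ∣ R), Real.exp (2 * w / p)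
          ≤ ∏ p ∈ (PS z y).filter (fun p => p ∣ R), (1 + 2 / (p : ℝ)) := by
            refine Finset.prod_le_prod (fun p _ => (Real.exp_pos _).le) fun p hp => ?_
            have h1 := hp4 y p (mem_filter.1 hp).1
            have hp0 : (0:ℝ) < p := by linarith
            have h2 : 2 * w / (p : ℝ) ≤ 1 / 2 := by
              rw [div_le_iff₀ hp0]
              linarith
            refine (exp_small _ (by positivity) h2).trans ?_
            have h3 : 2 * w / (p : ℝ) ≤ 1 / p := div_le_div_of_nonneg_right (by linarith) hp0.le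
            have h4 : 2 / (p : ℝ) = 2 * (1 / p) := by ring
            rw [h4]
            linarith
        _ ≤ ∏ p ∈ R.primeFactors, (1 + 2 / (p : ℝ)) := by
            refine Finset.prod_le_prod_of_subset_of_one_le hsub (fun p _ => by positivity)
              fun p _ _ => ?_
            have : (0:ℝ) ≤ 2 / (p : ℝ) := by positivity
            linarith
    calc Real.exp (∑ p ∈ S', θ p * chr κ r e' p) ≤
          Real.exp (2 * w * Real.log (Real.log r) + (w * (|C1| + |C2|) + 2 * c * K) +
            ∑ p ∈ (PS z y).filter (fun p => p ∣ R), 2 * w / p) := Real.exp_le_exp.2 hexp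
      _ = Real.exp (2 * w * Real.log (Real.log r)) * D' *
          Real.exp (∑ p ∈ (PS z y).filter (fun p => p ∣ R), 2 * w / p) := by
          rw [Real.exp_add, Real.exp_add]
      _ ≤ Real.log r * max D D' * hh R := by
          have h1 : Real.exp (2 * w * Real.log (Real.log r)) ≤ Real.log r := by
            calc Real.exp (2 * w * Real.log (Real.log r)) ≤ Real.exp (Real.log (Real.log r)) := by
                  rw [Real.exp_le_exp]
                  nlinarith
              _ = Real.log r := Real.exp_log hlr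
          refine mul_le_mul (mul_le_mul h1 (le_max_right _ _) (Real.exp_pos _).le hlr.le) hhh
            (Real.exp_pos _).le (by positivity)
      _ = max D D' * Real.log r * hh R := by ring

end Pool.Agent.W762.QF
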